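import Pool.Agent.H28.Mon13

set_option autoImplicit false

namespace Pool.Agent.Results.MP_eb2ab9_co.Ample

open ExteriorAlgebra

variable {N : ℕ}

/-- A finite simplicial complex on `Fin N`: contains the empty face, closed under subsets. -/
def IsComplex (Δ : Finset (Finset (Fin N))) : Prop :=
  ∅ ∈ Δ ∧ ∀ G ∈ Δ, ∀ H : Finset (Fin N), H ⊆ G → H ∈ Δ

/-- The link of a face. -/
def link (Δ : Finset (Finset (Fin N))) (F : Finset (Fin N)) : Finset (Finset (Fin N)) :=
  (Finset.univ : Finset (Finset (Fin N))).filter fun G => Disjoint G F ∧ G ∪ F ∈ Δ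

/-- The boundary map of the augmented oriented integral simplicial chain complex. -/
def bdry : (Finset (Fin N) → ℤ) →ₗ[ℤ] (Finset (Fin N) → ℤ) where
  toFun c T := ∑ v ∈ Tᶜ, (-1) ^ (T.filter (· < v)).card * c (insert v T)
  map_add' x y := by
    funext T
    simp [mul_add, Finset.sum_add_distrib]
  map_smul' a x := by
    funext T
    simp [Finset.mul_sum, mul_left_comm]

/-- Integral chains supported on the faces with `j` vertices. -/
def chains (Δ : Finset (Finset (Fin N))) (j : ℕ) : Submodule ℤ (Finset (Fin N) → ℤ) :=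
  Submodule.pi {T | ¬ (T ∈ Δ ∧ T.card = j)} fun _ => ⊥

/-- The cycles among the chains on faces with `j` vertices. -/
def cycles (Δ : Finset (Finset (Fin N))) (j : ℕ) : Submodule ℤ (Finset (Fin N) → ℤ) :=
  chains Δ j ⊓ LinearMap.ker bdry

/-- The boundaries of the chains on faces with `j + 1` vertices. -/
def bounds (Δ : Finset (Finset (Fin N))) (j : ℕ) : Submodule ℤ (Finset (Fin N) → ℤ) :=
  (chains Δ (j + 1)).map bdry

/-- The reduced integral homology group in dimension `j - 1`: cycles modulo boundaries. -/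
def RedHom (Δ : Finset (Finset (Fin N))) (j : ℕ) : Type :=
  ↥(cycles Δ j) ⧸ (bounds Δ j).submoduleOf (cycles Δ j)

noncomputable instance (Δ : Finset (Finset (Fin N))) (j : ℕ) : AddCommGroup (RedHom Δ j) :=
  Submodule.Quotient.addCommGroup _

/-- An `n`-dimensional complex all of whose links (the link of the empty face included) have the
integral homology of the sphere of dimension `n - 1 - dim F`. -/
def IsHomologySphere (n : ℕ) (Δ : Finset (Finset (Fin N))) : Prop :=
  Δ.sup Finset.card = n + 1 ∧ ∀ F ∈ Δ, Nonempty (RedHom (link Δ F) (n + 1 - F.card) ≃+ ℤ) ∧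
    ∀ j, j ≠ n + 1 - F.card → Subsingleton (RedHom (link Δ F) j)

/-- The geometric realization is homeomorphic to the closed `n`-ball. -/
def IsBall (n : ℕ) (Δ : Finset (Finset (Fin N))) : Prop :=
  Nonempty ({x : Fin N → ℝ | (∀ j, 0 ≤ x j) ∧ ∑ j, x j = 1 ∧ ∃ G ∈ Δ, ∀ j, x j ≠ 0 → j ∈ G} ≃ₜ
    Metric.closedBall (0 : EuclideanSpace ℝ (Fin n)) 1)

/-- Every set of at most `d + 1` vertices of `Δ` is sent to affinely independent points. -/
def GenPos {d : ℕ} (Δ : Finset (Finset (Fin N))) (p : Fin N → Fin d → ℝ) : Prop :=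
  ∀ S : Finset (Fin N), (∀ v ∈ S, {v} ∈ Δ) → S.card ≤ d + 1 → AffineIndependent ℝ fun v : S => p v

variable {E : Type} [AddCommGroup E] [Module ℝ E]

/-- A vector, as an element of the exterior algebra. -/
noncomputable def vec (x : E) : ExteriorAlgebra ℝ E := ι ℝ x

/-- `P` lies in the `k`-th exterior power. -/
def Deg (k : ℕ) (P : ExteriorAlgebra ℝ E) : Prop := P ∈ ⋀[ℝ]^k E

/-- The exterior product of the vectors `q v` of the vertices of `F`, in increasing order. -/
noncomputable def bar (q : Fin N → E) (F : Finset (Fin N)) : ExteriorAlgebra ℝ E :=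
  (F.sort.map fun v => vec (q v)).prod

/-- `P` represents the zero class of the quotient `W` at the face `F`. -/
def Null (q : Fin N → E) (F : Finset (Fin N)) (P : ExteriorAlgebra ℝ E) : Prop := P * bar q F = 0

/-- A representative of the coefficient at the face `T` of the skeletal boundary of `c`. -/
noncomputable def sbd (Δ : Finset (Finset (Fin N))) (q : Fin N → E)
    (c : Finset (Fin N) → ExteriorAlgebra ℝ E) (T : Finset (Fin N)) : ExteriorAlgebra ℝ E :=
  ∑ x ∈ Tᶜ with insert x T ∈ Δ, c (insert x T) * vec (q x)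

/-- Skeletal `r`-ampleness for the homogeneous coordinates `q`, written with representatives of
the classes in `W`. For `j = i + 1 < r` (faces with `j` vertices), every cycle in `C_i` is the
boundary of a chain in `C_(i+1)`. -/
def SkelAmple (Δ : Finset (Finset (Fin N))) (q : Fin N → E) (r : ℕ) : Prop :=
  ∀ j < r, ∀ c : Finset (Fin N) → ExteriorAlgebra ℝ E, (∀ F, Deg (r - j) (c F)) →
    (∀ T ∈ Δ, T.card + 1 = j → Null q T (sbd Δ q c T)) →
    ∃ b : Finset (Fin N) → ExteriorAlgebra ℝ E, (∀ F, Deg (r - (j + 1)) (b F)) ∧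
      ∀ T ∈ Δ, T.card = j → Null q T (sbd Δ q b T - c T)

open Pool.Agent.H28.Mon in
theorem result (N n d r : ℕ) (Δ : Finset (Finset (Fin N))) (p : Fin N → Fin d → ℝ)
    (hΔ : IsComplex Δ) (hp : GenPos Δ p)
    (h : (IsHomologySphere n Δ ∧ d < n) ∨ (IsBall n Δ ∧ d ≤ n)) :
    SkelAmple Δ (fun v => ((p v, 1) : (Fin d → ℝ) × ℝ)) r := by
  have dn : ∀ G H, G ⊆ H → H ∈ Δ → G ∈ Δ := fun G H a b => hΔ.2 H b G a
  have fr : Module.finrank ℝ ((Fin d → ℝ) × ℝ) = d + 1 := by simp
  set q := fun v => ((p v, 1) : (Fin d → ℝ) × ℝ)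
  have eb : ∀ F, bar q F = pr q (srt F) := fun F => by
    rw [bar, (Finset.sortedLT_sort F).pairwise.eq_of_mem_iff (srt_sorted F) (by simp)]
    rfl
  have es : ∀ c T, sbd Δ q c T = @Finset.sum _ _ _ (@Finset.filter _ (fun x => insert x T ∈ Δ)
      (fun _ => Classical.propDecidable _) Tᶜ) fun x => c (insert x T) * ι ℝ (q x) :=
    fun c T => Finset.sum_congr (Finset.filter_congr_decidable _ _ _).symm fun _ _ => rfl
  intro j hj c hc h0
  simp only [Null, eb] at h0 ⊢
  have := ample (K := ℝ) (Δ := (· ∈ Δ)) (q := q) dn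
    (fun G hG h1 v hv => by
      have h2 := hp G (fun v hv => dn _ _ (by simpa) hG) (fr ▸ h1)
      have h3 : LinearIndependent ℝ fun v : G => ((p v, 1) : (Fin d → ℝ) × ℝ) := by
        rw [linearIndependent_iff']
        intro s w e
        refine affineIndependent_iff.1 h2 s w ?_ ?_
        · simpa [Prod.snd_sum] using congrArg Prod.snd e
        · simpa [Prod.fst_sum] using congrArg Prod.fst e
      obtain ⟨φ, hφ⟩ := (Finsupp.lapply (⟨v, hv⟩ : G) ∘ₗ h3.repr).exists_extend
      refine ⟨φ, fun w hw => ?_⟩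
      have := LinearMap.congr_fun hφ ⟨_, Submodule.subset_span ⟨⟨w, hw⟩, rfl⟩⟩
      rw [LinearMap.comp_apply, LinearMap.comp_apply, h3.repr_eq_single ⟨w, hw⟩ _ rfl] at this
      simpa [Finsupp.single_apply] using this)
    (fun F k hk => by
      rcases h with ⟨⟨-, h1⟩, h2⟩ | ⟨⟨φ⟩, h2⟩
      swap
      · exact ball_st (n := n) dn φ F k (by omega)
      by_cases hF : F ∈ Δ
      swap
      · exact fex_empty (fun G a => hF (dn _ _ a.2 a.1)) k
      obtain ⟨k, rfl⟩ : ∃ l, k = l + F.card := ⟨k - F.card, by ring⟩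
      refine fex_link dn F ?_
      rcases lt_or_ge k 0 with h0 | h0
      · exact fex_neg _ h0
      lift k to ℕ using h0
      have h3 := Submodule.Quotient.subsingleton_iff.1 ((h1 F hF).2 k (by omega))
      have eb : ∀ c : Finset (Fin N) → ℤ, bdry c = del ℤ c := by
        intro c
        funext T
        rw [del_apply, Finset.sum_ite, Finset.sum_const_zero, zero_add]
        exact Finset.sum_congr (by ext; simp) fun v _ => by simp [eps]
      have dl : ∀ G H, G ⊆ H → Disjoint H F ∧ H ∪ F ∈ Δ → Disjoint G F ∧ G ∪ F ∈ Δ :=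
        fun G H a b => ⟨b.1.mono_left a, dn _ _ (Finset.union_subset_union_left a) b.2⟩
      have ec : ∀ (m : ℕ) (x : Finset (Fin N) → ℤ), x ∈ chains (link Δ F) m ↔
          x ∈ CS (fun G => Disjoint G F ∧ G ∪ F ∈ Δ) (fun _ => (⊤ : Submodule ℤ ℤ)) m := by
        intro m x
        simp only [chains, link, mem_cs, Submodule.mem_pi, Set.mem_ofPred_eq, Submodule.mem_bot,
          Finset.mem_filter, Finset.mem_univ, true_and, Submodule.mem_top, Nat.cast_inj]
        exact forall_congr' fun G => not_imp_comm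
      refine fex_int fun x hx e => ?_
      have h4 : (⟨x, (ec k x).2 hx, by
          rw [SetLike.mem_coe, LinearMap.mem_ker, eb, ← bd_down dl hx, e]⟩ :
          cycles (link Δ F) k) ∈ (bounds (link Δ F) k).submoduleOf _ := h3 ▸ Submodule.mem_top
      obtain ⟨y, hy, e2⟩ : x ∈ (chains (link Δ F) (k + 1)).map bdry := h4
      have := (ec _ y).1 hy
      exact ⟨y, by exact_mod_cast this, by rw [bd_down dl this, ← eb, e2]⟩) r j hj c hc
    (fun T a b => by simpa only [← es] using h0 T a b)
  simpa only [← es, Deg] using this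

end Pool.Agent.Results.MP_eb2ab9_co.Ample
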